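import Pool.Agent.Helper48.TF.Defs4

/-!
# Part LNR: the locally nilpotent radical
-/

set_option autoImplicit false

namespace Pool.TF52

open Pool.TF48

variable {A : Type} [Ring A]

/-- locally nilpotent two sided ideals, as subgroups -/
def LN (J : Submodule ℤ A) : Prop :=
  ⊤ * J ≤ J ∧ J * ⊤ ≤ J ∧ ∀ M : Submodule ℤ A, M.FG → M ≤ J → ∃ m, M ^ m = ⊥

theorem ln_bot : LN (⊥ : Submodule ℤ A) := by
  refine ⟨by simp, by simp, fun M _ hM => ⟨1, ?_⟩⟩
  rw [pow_one]
  exact le_bot_iff.1 hM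

/-- powers of a sum modulo an ideal -/
theorem pow_sup_le {G H J : Submodule ℤ A} (hJ1 : ⊤ * J ≤ J) (hJ2 : J * ⊤ ≤ J) (hH : H ≤ J) (k : ℕ) :
    (G ⊔ H) ^ (k + 1) ≤ G ^ (k + 1) ⊔ J := by
  induction k with
  | zero => simpa using sup_le le_sup_left (hH.trans le_sup_right)
  | succ k ih =>
    rw [pow_succ (G ⊔ H) (k + 1)]
    calc (G ⊔ H) ^ (k + 1) * (G ⊔ H) ≤ (G ^ (k + 1) ⊔ J) * (G ⊔ J) :=
          mul_le_mul' ih (sup_le_sup_left hH _)
      _ ≤ G ^ (k + 1 + 1) ⊔ J := by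
          rw [Submodule.sup_mul, Submodule.mul_sup]
          refine sup_le (sup_le ?_ ?_) ?_
          · rw [← pow_succ]; exact le_sup_left
          · exact ((mul_le_mul' le_top le_rfl).trans hJ1).trans le_sup_right
          · exact ((mul_le_mul' le_rfl le_top).trans hJ2).trans le_sup_right

/-- finitely generated submodules of a sum -/
theorem fg_le_sup {J K M : Submodule ℤ A} (hM : M.FG) (h : M ≤ J ⊔ K) :
    ∃ G : Submodule ℤ A, G.FG ∧ G ≤ J ∧ M ≤ G ⊔ K := by
  classical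
  obtain ⟨s, rfl⟩ := hM
  have h1 : ∀ x ∈ s, ∃ y ∈ J, ∃ z ∈ K, y + z = x := fun x hx =>
    Submodule.mem_sup.1 (h (Submodule.subset_span hx))
  choose! f hf g hg hfg using h1
  refine ⟨Submodule.span ℤ (s.image f : Finset A), ⟨s.image f, rfl⟩, ?_, ?_⟩
  · rw [Submodule.span_le]
    intro y hy
    simp only [Finset.coe_image, Set.mem_image, Finset.mem_coe] at hy
    obtain ⟨x, hx, rfl⟩ := hy
    exact hf x hx
  · rw [Submodule.span_le]
    intro x hx
    have hx' : x ∈ s := hx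
    rw [← hfg x hx']
    exact Submodule.add_mem_sup (Submodule.subset_span (by
      simp only [Finset.coe_image, Set.mem_image, Finset.mem_coe]
      exact ⟨x, hx', rfl⟩)) (hg x hx')

theorem ln_sup {J K : Submodule ℤ A} (hJ : LN J) (hK : LN K) : LN (J ⊔ K) := by
  refine ⟨?_, ?_, ?_⟩
  · rw [Submodule.mul_sup]
    exact sup_le_sup hJ.1 hK.1
  · rw [Submodule.sup_mul]
    exact sup_le_sup hJ.2.1 hK.2.1
  · intro M hM hMJ
    obtain ⟨G, hG, hGJ, hMG⟩ := fg_le_sup hM hMJ
    obtain ⟨m, hm⟩ := hJ.2.2 G hG hGJ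
    have h1 : M ^ (m + 1) ≤ K := by
      calc M ^ (m + 1) ≤ (G ⊔ K) ^ (m + 1) := by
            exact pow_le_pow_left' hMG _
        _ ≤ G ^ (m + 1) ⊔ K := pow_sup_le hK.1 hK.2.1 le_rfl m
        _ ≤ K := by
            rw [pow_succ, hm]
            simp
    obtain ⟨l, hl⟩ := hK.2.2 (M ^ (m + 1)) (hM.pow _) h1
    exact ⟨(m + 1) * l, by rw [pow_mul, hl]⟩

theorem main : S_LNR := by
  intro A _
  have hne : {J : Submodule ℤ A | LN J}.Nonempty := ⟨⊥, ln_bot⟩
  have hdir : DirectedOn (· ≤ ·) {J : Submodule ℤ A | LN J} := by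
    intro J hJ K hK
    exact ⟨J ⊔ K, ln_sup hJ hK, le_sup_left, le_sup_right⟩
  set L : Submodule ℤ A := sSup {J : Submodule ℤ A | LN J} with hLdef
  have hmem : ∀ x : A, x ∈ L ↔ ∃ J : Submodule ℤ A, LN J ∧ x ∈ J := by
    intro x
    rw [hLdef, Submodule.mem_sSup_of_directed hne hdir]
    simp
  have hL : LN L := by
    refine ⟨?_, ?_, ?_⟩
    · rw [Submodule.mul_le]
      intro m _ x hx
      obtain ⟨J, hJ, hxJ⟩ := (hmem x).1 hx
      exact (hmem _).2 ⟨J, hJ, hJ.1 (Submodule.mul_mem_mul Submodule.mem_top hxJ)⟩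
    · rw [Submodule.mul_le]
      intro x hx m _
      obtain ⟨J, hJ, hxJ⟩ := (hmem x).1 hx
      exact (hmem _).2 ⟨J, hJ, hJ.2.1 (Submodule.mul_mem_mul hxJ Submodule.mem_top)⟩
    · intro M hM hML
      have hc := (Submodule.fg_iff_compact M).1 hM
      rw [CompleteLattice.isCompactElement_iff_le_of_directed_sSup_le] at hc
      obtain ⟨J, hJ, hMJ⟩ := hc _ hne hdir hML
      exact hJ.2.2 M hM hMJ
  refine ⟨L, hL.1, hL.2.1, hL.2.2, ?_⟩
  intro a ha
  set I : Submodule ℤ A := ⊤ * Submodule.span ℤ {a} * ⊤ with hI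
  have hIL : (L ⊔ I) * (L ⊔ I) ≤ L := by
    rw [Submodule.sup_mul, Submodule.mul_sup, Submodule.mul_sup]
    refine sup_le (sup_le ?_ ?_) (sup_le ?_ ?_)
    · exact (mul_le_mul' le_top le_rfl).trans hL.1
    · exact (mul_le_mul' le_rfl le_top).trans hL.2.1
    · exact (mul_le_mul' le_top le_rfl).trans hL.1
    · have h2 : Submodule.span ℤ {a} * ⊤ * Submodule.span ℤ {a} ≤ L := by
        rw [Submodule.mul_le]
        intro x hx y hy
        obtain ⟨c, rfl⟩ := Submodule.mem_span_singleton.1 hy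
        have h3 : ∀ x ∈ Submodule.span ℤ {a} * (⊤ : Submodule ℤ A), x * (c • a) ∈ L := by
          intro x hx
          refine Submodule.mul_induction_on hx ?_ ?_
          · intro u hu b _
            obtain ⟨e, rfl⟩ := Submodule.mem_span_singleton.1 hu
            have h4 : e • a * b * (c • a) = (c * e) • (a * b * a) := by
              simp only [smul_mul_assoc, mul_smul_comm, smul_smul]
            rw [h4]
            exact L.smul_mem _ (ha b)
          · intro u v hu hv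
            rw [add_mul]
            exact L.add_mem hu hv
        exact h3 x hx
      calc I * I = ⊤ * (Submodule.span ℤ {a} * (⊤ * ⊤) * Submodule.span ℤ {a}) * ⊤ := by
            rw [hI]; simp only [mul_assoc]
        _ ≤ ⊤ * (Submodule.span ℤ {a} * ⊤ * Submodule.span ℤ {a}) * ⊤ := by
            exact mul_le_mul' (mul_le_mul' le_rfl
              (mul_le_mul' (mul_le_mul' le_rfl le_top) le_rfl)) le_rfl
        _ ≤ ⊤ * L * ⊤ := mul_le_mul' (mul_le_mul' le_rfl h2) le_rfl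
        _ ≤ L := (mul_le_mul' hL.1 le_rfl).trans hL.2.1
  have hJ : LN (L ⊔ I) := by
    refine ⟨?_, ?_, ?_⟩
    · rw [Submodule.mul_sup]
      refine sup_le_sup hL.1 ?_
      rw [hI, ← mul_assoc, ← mul_assoc]
      exact mul_le_mul' (mul_le_mul' le_top le_rfl) le_rfl
    · rw [Submodule.sup_mul]
      refine sup_le_sup hL.2.1 ?_
      rw [hI, mul_assoc]
      exact mul_le_mul' le_rfl le_top
    · intro M hM hMJ
      have h1 : M ^ 2 ≤ L := by
        rw [pow_two]
        exact (mul_le_mul' hMJ hMJ).trans hIL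
      obtain ⟨l, hl⟩ := hL.2.2 (M ^ 2) (hM.pow _) h1
      exact ⟨2 * l, by rw [pow_mul, hl]⟩
  have hIJ : L ⊔ I ≤ L := le_sSup hJ
  apply hIJ
  apply Submodule.mem_sup_right
  have h5 := Submodule.mul_mem_mul (Submodule.mul_mem_mul (Submodule.mem_top (x := (1 : A)) (R := ℤ))
    (Submodule.mem_span_singleton_self (R := ℤ) a)) (Submodule.mem_top (x := (1 : A)) (R := ℤ))
  simpa using h5

end Pool.TF52
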